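import Pool.Agent.L7h15.OA.Ch

/-!
Euler products over abelian extensions of `l`-power degree (`K4H55/CX/Ab` and `L7h15/BK/Cls` for characters of
`l`-power order).
-/

set_option autoImplicit false
set_option linter.unusedSectionVars false

namespace Pool.Agent.L7h15.OA

open NumberField IsDedekindDomain Filter Topology
open Pool.Agent.K4H55.BI Pool.Agent.K4H55.BK
open Pool.Agent.K4H55.CX (prod_grp luc luc_eq exists_ab ord facF cpow_two cpow_f efx Law)

section field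

variable {K : Type} [Field K] [NumberField K] [hP : IsPrincipalIdealRing (𝓞 K)] {σ : K →+* ℂ}
  {δ : K} {n : 𝓞 K} {c : Ideal (𝓞 K) → ℂ} {𝒢 : Type} [CommGroup 𝒢] [Finite 𝒢]
  {T : 𝒢 → Finset (HeightOneSpectrum (𝓞 K))} {χ : 𝒢 → 𝓞 K → ℂ} {l : ℕ}
  {F : Type} [Field F] [NumberField F] [Algebra K F]

/-- a group of characters -/
structure CFl (l : ℕ) (T : 𝒢 → Finset (HeightOneSpectrum (𝓞 K))) (χ : 𝒢 → 𝓞 K → ℂ) : Prop where
  ch : ∀ g, CHl l (T g) (χ g)
  mul : ∀ g h x, χ g x ≠ 0 → χ h x ≠ 0 → χ (g * h) x = χ g x * χ h x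

lemma CFl.triv (h : CFl l T χ) (x : 𝓞 K) : χ 1 x = 1 := by
  have h1 : ∀ x, χ 1 x ≠ 0 → χ 1 x = 1 := by
    intro x hx
    have h2 := h.mul 1 1 x hx hx
    rw [mul_one] at h2
    have h3 : χ 1 x * (χ 1 x - 1) = 0 := by linear_combination -h2
    rcases mul_eq_zero.1 h3 with h4 | h4
    · exact absurd h4 hx
    · exact sub_eq_zero.1 h4
  have hT : T 1 = ∅ := by
    rw [Finset.eq_empty_iff_forall_notMem]
    intro v hv
    obtain ⟨y, -, h2, h3⟩ := (h.ch 1).prim v hv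
    exact h3 (h1 y h2)
  apply h1
  rw [(h.ch 1).ne_iff, hT]
  exact fun v hv => absurd hv (Finset.notMem_empty v)

/-- the characters prime to `x` -/
def CFl.sub (h : CFl l T χ) (x : 𝓞 K) : Subgroup 𝒢 where
  carrier := {g | χ g x ≠ 0}
  mul_mem' := fun {g g'} hg hg' => by
    show χ (g * g') x ≠ 0
    rw [h.mul g g' x hg hg']
    exact mul_ne_zero hg hg'
  one_mem' := by
    show χ 1 x ≠ 0
    rw [h.triv]
    exact one_ne_zero
  inv_mem' := fun {g} hg => by
    show χ g⁻¹ x ≠ 0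
    have h1 : ∀ j : ℕ, χ (g ^ j) x ≠ 0 := by
      intro j
      induction j with
      | zero => rw [pow_zero, h.triv]; exact one_ne_zero
      | succ j ih =>
        rw [pow_succ, h.mul _ _ x ih hg]
        exact mul_ne_zero ih hg
    have h2 : g⁻¹ = g ^ (orderOf g - 1) := by
      have h3 : 0 < orderOf g := orderOf_pos g
      rw [inv_eq_iff_mul_eq_one, ← pow_succ', Nat.sub_add_cancel h3, pow_orderOf_eq_one]
    rw [h2]
    exact h1 _

/-- evaluation at `x` -/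
def CFl.ev (h : CFl l T χ) (x : 𝓞 K) : h.sub x →* ℂ where
  toFun := fun g => χ g x
  map_one' := h.triv x
  map_mul' := fun g g' => h.mul g g' x g.2 g'.2

lemma CFl.card_ev (h : CFl l T χ) (x : 𝓞 K) : Nat.card (Set.range (h.ev x)) = ord χ x := by
  unfold ord
  refine Nat.card_congr (Equiv.setCongr ?_)
  ext z
  constructor
  · rintro ⟨g, rfl⟩
    exact ⟨g.2, g, rfl⟩
  · rintro ⟨hz, g, rfl⟩
    exact ⟨⟨g, hz⟩, rfl⟩

theorem CFl.prod (h : CFl l T χ) (x : 𝓞 K) [Fintype 𝒢] :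
    ∃ r : ℕ, r * ord χ x = Nat.card {g // χ g x ≠ 0} ∧ 0 < ord χ x ∧
      ∀ (m : ℕ) (a : Fin m → ℂ) (F : ℂ → ℂ), F 0 = 1 → (∀ z, F z = (∏ i, (1 - a i * z))⁻¹) →
        ∏ g, F (χ g x) = ((∏ i, (1 - a i ^ ord χ x))⁻¹) ^ r := by
  classical
  have hfin : Fintype (h.sub x) := Fintype.ofFinite _
  obtain ⟨r, h1, h2, h3⟩ := prod_grp (h.ev x)
  rw [h.card_ev] at h1 h2 h3
  refine ⟨r, h1, h2, fun m a F hF0 hF => ?_⟩
  have h4 : ∏ g, F (χ g x) = ∏ g : h.sub x, F (χ g x) := by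
    have h5 : ∏ g ∈ Finset.univ.filter (fun g : 𝒢 => g ∈ h.sub x), F (χ g x) =
        ∏ g : h.sub x, F (χ g x) := Finset.prod_subtype _ (fun g => by simp) _
    rw [← h5]
    symm
    refine Finset.prod_subset (Finset.filter_subset _ _) fun g _ hg => ?_
    have h6 : χ g x = 0 := by
      by_contra h7
      exact hg (Finset.mem_filter.2 ⟨Finset.mem_univ _, h7⟩)
    rw [h6, hF0]
  have h5 : ∏ g : h.sub x, F (χ g x) = ∏ g : h.sub x, (∏ i, (1 - a i * χ g x))⁻¹ :=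
    Finset.prod_congr rfl fun g _ => hF _
  rw [h4, h5, Finset.prod_inv_distrib, inv_pow, Finset.prod_comm, ← Finset.prod_pow]
  congr 1
  exact Finset.prod_congr rfl fun i _ => h3 (a i)

/-- the product of the Euler factors -/
theorem CFl.local (h : CFl l T χ) (v : HeightOneSpectrum (𝓞 K)) [Fintype 𝒢] (n : 𝓞 K)
    (c : Ideal (𝓞 K) → ℂ) (s : ℂ) {m : ℕ}
    (hm : m * ord χ (gen v) = Nat.card {g // χ g (gen v) ≠ 0}) :
    ∏ g, efx n c (χ g) s v = facF n c v (Ideal.absNorm v.asIdeal ^ ord χ (gen v)) s ^ m := by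
  classical
  obtain ⟨r, h1, h2, h3⟩ := h.prod (gen v)
  have hrm : r = m := Nat.eq_of_mul_eq_mul_right h2 (h1.trans hm.symm)
  subst hrm
  set f := ord χ (gen v) with hf
  set q := Ideal.absNorm v.asIdeal with hq
  have hq1 : 1 < q := by
    have h5 : q ≠ 0 := by
      rw [hq, Ne, Ideal.absNorm_eq_zero_iff]
      exact v.ne_bot
    have h6 : q ≠ 1 := by
      rw [hq, Ne, Ideal.absNorm_eq_one_iff]
      exact v.isPrime.ne_top
    omega
  have hqf : q ^ f ≠ 0 := pow_ne_zero f (by omega)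
  have hlog : Nat.log q (q ^ f) = f := Nat.log_pow hq1 f
  unfold facF
  rw [← hq, hlog]
  by_cases hn : n ∈ v.asIdeal
  · rw [if_pos hn, cpow_f, ← mul_pow]
    have h4 := h3 1 (fun _ => c v.asIdeal * (q : ℂ) ^ (-s))
      (fun z => (1 - c v.asIdeal * (q : ℂ) ^ (-s) * z)⁻¹) (by simp) (fun z => by simp)
    simp only [Finset.univ_unique, Finset.prod_const, Finset.card_singleton, pow_one] at h4
    rw [← h4]
    refine Finset.prod_congr rfl fun g _ => ?_
    unfold efx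
    rw [if_pos hn, ← hq, add_zero]
    congr 2
    ring
  · rw [if_neg hn, cpow_two _ hqf, cpow_f]
    obtain ⟨α, β, hα, hβ⟩ := exists_ab (c v.asIdeal) q
    have e1 : luc (c v.asIdeal) (q : ℂ) f = α ^ f + β ^ f := by
      rw [← hα, ← hβ, luc_eq]
    have h4 := h3 2 ![α * (q : ℂ) ^ (-s), β * (q : ℂ) ^ (-s)]
      (fun z => ((1 - α * (q : ℂ) ^ (-s) * z) * (1 - β * (q : ℂ) ^ (-s) * z))⁻¹) (by simp)
      (fun z => by simp)
    rw [Fin.prod_univ_two] at h4
    simp only [Matrix.cons_val_zero, Matrix.cons_val_one, Matrix.cons_val_fin_one] at h4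
    rw [e1]
    have e2 : 1 - (α ^ f + β ^ f) * ((q : ℂ) ^ (-s)) ^ f +
        ((q ^ f : ℕ) : ℂ) * (((q : ℂ) ^ (-s)) ^ f) ^ 2 =
        (1 - (α * (q : ℂ) ^ (-s)) ^ f) * (1 - (β * (q : ℂ) ^ (-s)) ^ f) := by
      rw [mul_pow, mul_pow]
      push_cast
      rw [← hβ, mul_pow]
      ring
    rw [e2, ← h4]
    refine Finset.prod_congr rfl fun g _ => ?_
    unfold efx
    rw [if_neg hn, ← hq, cpow_two _ (by omega), ← hα]
    congr 1
    rw [← hβ]
    ring

/-- the product of the factors above `v` -/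
lemma above_prod (hcf : CFl l T χ) (hl : Law F χ) [Fintype 𝒢] (v : HeightOneSpectrum (𝓞 K)) (s : ℂ) :
    ∏ᶠ u : {u : HeightOneSpectrum (𝓞 F) //
      u.asIdeal.comap (algebraMap (𝓞 K) (𝓞 F)) = v.asIdeal},
        facF n c v (Ideal.absNorm u.1.asIdeal) s = ∏ g, efx n c (χ g) s v := by
  classical
  have h1 := hl.card v
  rw [hcf.local v n c s h1]
  set m := Nat.card {u : HeightOneSpectrum (𝓞 F) //
      u.asIdeal.comap (algebraMap (𝓞 K) (𝓞 F)) = v.asIdeal} with hm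
  have hpos : 0 < Nat.card {g // χ g (gen v) ≠ 0} := by
    have : Nonempty {g // χ g (gen v) ≠ 0} := ⟨⟨1, by rw [hcf.triv]; exact one_ne_zero⟩⟩
    exact Nat.card_pos
  have hm0 : m ≠ 0 := by
    intro h0
    rw [h0, zero_mul] at h1
    omega
  have hfin : Finite {u : HeightOneSpectrum (𝓞 F) //
      u.asIdeal.comap (algebraMap (𝓞 K) (𝓞 F)) = v.asIdeal} := Nat.finite_of_card_ne_zero hm0
  have : Fintype {u : HeightOneSpectrum (𝓞 F) //
      u.asIdeal.comap (algebraMap (𝓞 K) (𝓞 F)) = v.asIdeal} := Fintype.ofFinite _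
  rw [finprod_eq_prod_of_fintype, Finset.prod_congr rfl fun u _ => by rw [hl.norm v u.1 u.2],
    Finset.prod_const, Finset.card_univ, ← Nat.card_eq_fintype_card]

end field

section cls

open Pool.Agent.L7h15.BK (gen_mem exists_frob exists_above card_values' norm_above frob_pow card_above card_dual')

variable {K F : Type} [Field K] [NumberField K] [hP : IsPrincipalIdealRing (𝓞 K)]
  [Field F] [NumberField F] [Algebra K F] {l : ℕ}

/-- `χ`, of conductor the product of the `v ∈ T`, corresponds to the character `ψ` -/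
structure Rcl (l : ℕ) (ψ : (F ≃ₐ[K] F) →* ℂˣ) (T : Finset (HeightOneSpectrum (𝓞 K))) (χ : 𝓞 K → ℂ) :
    Prop where
  ch : CHl l T χ
  ram : ∀ v ∈ T, ∀ u : HeightOneSpectrum (𝓞 F),
    u.asIdeal.comap (algebraMap (𝓞 K) (𝓞 F)) = v.asIdeal →
    ∃ t : F ≃ₐ[K] F, (∀ x : 𝓞 F, t • x - x ∈ u.asIdeal) ∧ ψ t ≠ 1
  frob : ∀ v : HeightOneSpectrum (𝓞 K), v ∉ T → ∀ u : HeightOneSpectrum (𝓞 F),
    u.asIdeal.comap (algebraMap (𝓞 K) (𝓞 F)) = v.asIdeal →
    ∀ t : F ≃ₐ[K] F, (∀ x : 𝓞 F, t • x - x ^ Ideal.absNorm v.asIdeal ∈ u.asIdeal) →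
      (ψ t : ℂ) = χ (gen v)


variable [IsGalois K F]

lemma Rcl.mem_iff {ψ : (F ≃ₐ[K] F) →* ℂˣ} {T : Finset (HeightOneSpectrum (𝓞 K))} {χ : 𝓞 K → ℂ}
    (h : Rcl l ψ T χ) {v : HeightOneSpectrum (𝓞 K)} {u : HeightOneSpectrum (𝓞 F)}
    (hu : u.asIdeal.comap (algebraMap (𝓞 K) (𝓞 F)) = v.asIdeal) :
    v ∈ T ↔ ∃ t ∈ u.asIdeal.inertia (F ≃ₐ[K] F), ψ t ≠ 1 := by
  constructor
  · intro hv
    obtain ⟨t, h1, h2⟩ := h.ram v hv u hu
    exact ⟨t, h1, h2⟩
  · rintro ⟨s, hs, h1⟩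
    by_contra hv
    obtain ⟨t, ht⟩ := exists_frob hu
    have h2 := h.frob v hv u hu t ht
    have h3 := h.frob v hv u hu (t * s) fun x => by
      have e : (t * s) • x - x ^ Ideal.absNorm v.asIdeal =
          (t • (s • x) - (s • x) ^ Ideal.absNorm v.asIdeal) +
            ((s • x) ^ Ideal.absNorm v.asIdeal - x ^ Ideal.absNorm v.asIdeal) := by
        rw [mul_smul]; ring
      rw [e]
      exact u.asIdeal.add_mem (ht _) (u.asIdeal.mem_of_dvd (sub_dvd_pow_sub_pow _ _ _) (hs x))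
    apply h1
    rw [← h2, map_mul, Units.val_mul] at h3
    have h4 : ψ s = 1 := by
      apply Units.ext
      have h5 : (ψ t : ℂ) ≠ 0 := (ψ t).ne_zero
      exact mul_left_cancel₀ h5 (by rw [h3]; simp)
    exact h4

lemma Rcl.zero_iff {ψ : (F ≃ₐ[K] F) →* ℂˣ} {T : Finset (HeightOneSpectrum (𝓞 K))} {χ : 𝓞 K → ℂ}
    (h : Rcl l ψ T χ) (v : HeightOneSpectrum (𝓞 K)) : χ (gen v) = 0 ↔ v ∈ T := by
  constructor
  · intro h1
    by_contra hv
    obtain ⟨u, hu⟩ := exists_above (F := F) v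
    obtain ⟨t, ht⟩ := exists_frob hu
    have h2 := h.frob v hv u hu t ht
    rw [h1] at h2
    exact (ψ t).ne_zero h2
  · intro hv
    exact (h.ch.zero _).2 ⟨v, hv, gen_mem v⟩

/-- **the class field** -/
theorem cls (hab : ∀ s t : F ≃ₐ[K] F, s * t = t * s)
    {T : ((F ≃ₐ[K] F) →* ℂˣ) → Finset (HeightOneSpectrum (𝓞 K))}
    {χ : ((F ≃ₐ[K] F) →* ℂˣ) → 𝓞 K → ℂ} (h : ∀ ψ, Rcl l ψ (T ψ) (χ ψ)) :
    CFl l T χ ∧ Law F χ := by
  have hTmul : ∀ g g' : (F ≃ₐ[K] F) →* ℂˣ, ∀ v, v ∉ T g → v ∉ T g' → v ∉ T (g * g') := by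
    intro g g' v h1 h2 h3
    obtain ⟨u, hu⟩ := exists_above (F := F) v
    obtain ⟨t, ht, h4⟩ := ((h (g * g')).mem_iff hu).1 h3
    apply h4
    rw [MonoidHom.mul_apply]
    have h5 : g t = 1 := by
      by_contra h6
      exact h1 (((h g).mem_iff hu).2 ⟨t, ht, h6⟩)
    have h6 : g' t = 1 := by
      by_contra h7
      exact h2 (((h g').mem_iff hu).2 ⟨t, ht, h7⟩)
    rw [h5, h6, one_mul]
  have hgen : ∀ g g' : (F ≃ₐ[K] F) →* ℂˣ, ∀ v, χ g (gen v) ≠ 0 → χ g' (gen v) ≠ 0 →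
      χ (g * g') (gen v) = χ g (gen v) * χ g' (gen v) := by
    intro g g' v h1 h2
    have h3 : v ∉ T g := fun hv => h1 (((h g).zero_iff v).2 hv)
    have h4 : v ∉ T g' := fun hv => h2 (((h g').zero_iff v).2 hv)
    obtain ⟨u, hu⟩ := exists_above (F := F) v
    obtain ⟨t, ht⟩ := exists_frob hu
    rw [← (h g).frob v h3 u hu t ht, ← (h g').frob v h4 u hu t ht,
      ← (h (g * g')).frob v (hTmul g g' v h3 h4) u hu t ht, MonoidHom.mul_apply, Units.val_mul]
  have hcf : CFl l T χ := by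
    refine ⟨fun g => (h g).ch, fun g g' x => ?_⟩
    induction x using UniqueFactorizationMonoid.induction_on_prime with
    | h₁ =>
      intro h1 h2
      have hT : ∀ g : (F ≃ₐ[K] F) →* ℂˣ, χ g 0 ≠ 0 → T g = ∅ := by
        intro g hg
        rw [Finset.eq_empty_iff_forall_notMem]
        intro v hv
        exact hg (((h g).ch.zero 0).2 ⟨v, hv, v.asIdeal.zero_mem⟩)
      have hone : ∀ g : (F ≃ₐ[K] F) →* ℂˣ, T g = ∅ → χ g 0 = 1 := by
        intro g hg
        rw [← (h g).ch.one]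
        apply (h g).ch.prd
        intro v hv
        rw [hg] at hv
        exact absurd hv (Finset.notMem_empty v)
      have h3 := hT g h1
      have h4 := hT g' h2
      have h5 : T (g * g') = ∅ := by
        rw [Finset.eq_empty_iff_forall_notMem]
        intro v
        exact hTmul g g' v (by rw [h3]; exact Finset.notMem_empty v)
          (by rw [h4]; exact Finset.notMem_empty v)
      rw [hone _ h3, hone _ h4, hone _ h5, one_mul]
    | h₂ x hx =>
      intro _ _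
      rw [(h g).ch.unit x hx, (h g').ch.unit x hx, (h (g * g')).ch.unit x hx, one_mul]
    | h₃ a p ha hp ih =>
      intro h1 h2
      rw [(h g).ch.mul] at h1
      rw [(h g').ch.mul] at h2
      have h1' := left_ne_zero_of_mul h1
      have h2' := left_ne_zero_of_mul h2
      -- the place of `p`
      obtain ⟨v, hv⟩ : ∃ v : HeightOneSpectrum (𝓞 K), v.asIdeal = Ideal.span {p} :=
        ⟨⟨Ideal.span {p}, (Ideal.span_singleton_prime hp.ne_zero).2 hp, by
          rw [Ne, Ideal.span_singleton_eq_bot]; exact hp.ne_zero⟩, rfl⟩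
      have hass : Associated (gen v) p := by
        rw [← Ideal.span_singleton_eq_span_singleton, gen_span, hv]
      obtain ⟨e, he⟩ := hass
      have hχ : ∀ g : (F ≃ₐ[K] F) →* ℂˣ, χ g p = χ g (gen v) := by
        intro g
        rw [← he, (h g).ch.mul, (h g).ch.unit _ e.isUnit, mul_one]
      rw [(h g).ch.mul, (h g').ch.mul, (h (g * g')).ch.mul, ih (right_ne_zero_of_mul h1)
        (right_ne_zero_of_mul h2), hχ, hχ, hχ, hgen g g' v (by rw [← hχ]; exact h1')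
        (by rw [← hχ]; exact h2')]
      ring
  refine ⟨hcf, ?_⟩
  have hord : ∀ (v : HeightOneSpectrum (𝓞 K)) (u : HeightOneSpectrum (𝓞 F)),
      u.asIdeal.comap (algebraMap (𝓞 K) (𝓞 F)) = v.asIdeal →
      ord χ (gen v) = u.asIdeal.inertiaDeg (𝓞 K) := by
    intro v u hu
    obtain ⟨t, ht⟩ := exists_frob hu
    rw [← card_values' hab (u.asIdeal.inertia (F ≃ₐ[K] F)) t (norm_above hu).2
      (fun m => frob_pow hu ht m)]
    unfold ord
    refine Nat.card_congr (Equiv.setCongr ?_)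
    ext z
    constructor
    · rintro ⟨hz, g, rfl⟩
      have h1 : v ∉ T g := fun hv => hz (((h g).zero_iff v).2 hv)
      refine ⟨g, fun s hs => ?_, (h g).frob v h1 u hu t ht⟩
      by_contra h2
      exact h1 (((h g).mem_iff hu).2 ⟨s, hs, h2⟩)
    · rintro ⟨g, hg, rfl⟩
      have h1 : v ∉ T g := by
        intro hv
        obtain ⟨s, hs, h2⟩ := ((h g).mem_iff hu).1 hv
        exact h2 (hg s hs)
      exact ⟨(g t).ne_zero, g, ((h g).frob v h1 u hu t ht).symm⟩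
  refine ⟨fun v u hu => ?_, fun v => ?_⟩
  · rw [hord v u hu]
    exact (norm_above hu).1
  · obtain ⟨u, hu⟩ := exists_above (F := F) v
    rw [hord v u hu]
    have h1 := card_above hu
    have h2 := card_dual' hab (u.asIdeal.inertia (F ≃ₐ[K] F))
    have h3 : Nat.card {g // χ g (gen v) ≠ 0} =
        Nat.card {ψ : (F ≃ₐ[K] F) →* ℂˣ // ∀ t ∈ u.asIdeal.inertia (F ≃ₐ[K] F), ψ t = 1} := by
      refine Nat.card_congr (Equiv.subtypeEquivRight fun g => ?_)
      rw [Ne, (h g).zero_iff v, (h g).mem_iff hu]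
      push Not
      rfl
    have h4 := Subgroup.card_mul_index (u.asIdeal.inertia (F ≃ₐ[K] F))
    rw [h3, h2]
    have h5 : 0 < Nat.card (u.asIdeal.inertia (F ≃ₐ[K] F)) := Nat.card_pos
    apply Nat.eq_of_mul_eq_mul_left h5
    rw [h4, ← h1]
    ring

end cls

end Pool.Agent.L7h15.OA
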