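import Pool.Agent.L7h15.BK.End1

/-!
# Characters of `l`-power order and the central values, `l` an odd prime

The analogue of `K4H55/CX/{Nv,Odd,Val}` for an odd prime `l`: the central values of the twists of a Bianchi
newform by characters of `l`-power order are congruent to multiples of the central value of the form, modulo
the primes above `l`.
-/

set_option autoImplicit false
set_option linter.unusedSectionVars false

namespace Pool.Agent.L7h15.OA

open NumberField IsDedekindDomain Filter Topology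
open Pool.Agent.K4H55.BI Pool.Agent.K4H55.BK Pool.Agent.K4H55.CX
open scoped ComplexConjugate

/-- there are primes above `l` -/
theorem exists_lam {l : ℕ} (hl : l.Prime) : ∃ lam : Ideal (integralClosure ℤ ℂ), lam.IsPrime ∧
    (l : integralClosure ℤ ℂ) ∈ lam := by
  have hl0 : (l : ℂ) ≠ 0 := by exact_mod_cast hl.ne_zero
  obtain ⟨m, hm, hle⟩ := Ideal.exists_le_maximal (Ideal.span {(l : integralClosure ℤ ℂ)}) (by
    rw [Ne, Ideal.span_singleton_eq_top]
    intro hu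
    obtain ⟨y, hy⟩ := hu.exists_right_inv
    have h1 : (l : ℂ) * (y : ℂ) = 1 := by
      have := congrArg Subtype.val hy
      simpa using this
    have h2 : IsIntegral ℤ (algebraMap ℚ ℂ (1 / l)) := by
      have e : algebraMap ℚ ℂ (1 / l) = (y : ℂ) := by
        rw [map_div₀, map_one, map_natCast]
        field_simp
        linear_combination -h1
      rw [e]
      exact y.2
    have h3 : IsIntegral ℤ ((1 / l : ℚ)) :=
      (isIntegral_algebraMap_iff (algebraMap ℚ ℂ).injective).1 h2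
    obtain ⟨q, hq⟩ := IsIntegrallyClosed.isIntegral_iff.1 h3
    have hlQ : (l : ℚ) ≠ 0 := by exact_mod_cast hl.ne_zero
    have h4 : ((l : ℚ) * q) = 1 := by
      have hq' : (q : ℚ) = 1 / l := hq
      rw [hq']
      field_simp
    have h5 : (l : ℤ) * q = 1 := by exact_mod_cast h4
    have h6 : (l : ℤ) ∣ 1 := ⟨q, h5.symm⟩
    have h7 : (l : ℤ) ≤ 1 := Int.le_of_dvd one_pos h6
    have := hl.one_lt
    omega)
  exact ⟨m, hm.isPrime, hle (Ideal.mem_span_singleton_self _)⟩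

/-- roots of unity of `l`-power order -/
lemma lam_pow (lam : Ideal (integralClosure ℤ ℂ)) (hlam : lam.IsPrime) {l : ℕ} (hl : l.Prime)
    (h2 : (l : integralClosure ℤ ℂ) ∈ lam) (k : ℕ) (z : integralClosure ℤ ℂ)
    (hz : z ^ l ^ k = 1) : z - 1 ∈ lam := by
  have : Fact l.Prime := ⟨hl⟩
  have : IsDomain (integralClosure ℤ ℂ ⧸ lam) := Ideal.Quotient.isDomain lam
  have h0 : ((l : ℕ) : integralClosure ℤ ℂ ⧸ lam) = 0 := by
    have e : ((l : ℕ) : integralClosure ℤ ℂ ⧸ lam) = Ideal.Quotient.mk lam (l : integralClosure ℤ ℂ) :=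
      (map_natCast _ l).symm
    rw [e, Ideal.Quotient.eq_zero_iff_mem]
    exact h2
  have hch : CharP (integralClosure ℤ ℂ ⧸ lam) l := (CharP.charP_iff_prime_eq_zero hl).2 h0
  rw [← Ideal.Quotient.eq_zero_iff_mem]
  have h1 : (Ideal.Quotient.mk lam (z - 1)) ^ l ^ k = 0 := by
    rw [map_sub, map_one, sub_pow_char_pow, one_pow, ← map_pow, hz, map_one, sub_self]
  exact (pow_eq_zero_iff (pow_pos hl.pos k).ne').1 h1

/-- rational integers in `λ` -/
lemma int_lam (lam : Ideal (integralClosure ℤ ℂ)) (hlam : lam.IsPrime) {l : ℕ} (hl : l.Prime)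
    (h2 : (l : integralClosure ℤ ℂ) ∈ lam) {m : ℤ} {y : integralClosure ℤ ℂ} (hy : y ∈ lam)
    (h : (m : ℂ) = y) : (l : ℤ) ∣ m := by
  have h6 : y = (m : integralClosure ℤ ℂ) := by
    apply Subtype.ext
    rw [← h]
    simp
  by_contra hcon
  have hco : IsCoprime (l : ℤ) m := (Nat.prime_iff_prime_int.1 hl).irreducible.coprime_iff_not_dvd.2 hcon
  obtain ⟨u, v, huv⟩ := hco
  apply hlam.ne_top
  rw [Ideal.eq_top_iff_one]
  have e : (1 : integralClosure ℤ ℂ) = (u : integralClosure ℤ ℂ) * (l : integralClosure ℤ ℂ) +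
      (v : integralClosure ℤ ℂ) * y := by
    rw [h6]
    exact_mod_cast huv.symm
  rw [e]
  exact lam.add_mem (lam.mul_mem_left _ h2) (lam.mul_mem_left _ hy)

section ord

variable {O : Type} [CommRing O] {D : Pool.Agent.K4H55.BI.Ord O} {n : O} {c : O → ℂ} {C : ℝ} {w : ℂ}
  {M : Submodule ℤ ℂ}

/-- the sum for a character of `l`-power order -/
theorem sum_cong [IsDomain O] (h : MG D n c C w M)
    {T : Finset O} (hT : Fam T) {χ : O → ℂ} (hχ : Hc T χ)
    (hn : ∀ p ∈ T, ¬ p ∣ n) {l : ℕ} (hl : l.Prime) {k : ℕ}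
    (hk : ∀ x, (∀ p ∈ T, ¬ p ∣ x) → χ x ^ l ^ k = 1)
    {Λ : AddSubgroup ℂ}
    (hΛ : ∀ x m : O, m ≠ 0 → IsCoprime m n → fv D c (D.ι x / D.ι m) ∈ Λ)
    (lam : Ideal (integralClosure ℤ ℂ)) (hlam : lam.IsPrime)
    (h2 : (l : integralClosure ℤ ℂ) ∈ lam) :
    ∃ y ∈ lamG lam Λ, ∑ x ∈ rs D (md T), conj (χ x) * fv D c (D.ι x / D.ι (md T)) =
      (∏ q ∈ T, (c q - 2)) * fv D c 0 + y := by
  classical
  set f := fv D c with hf
  have h1 : st D f T ∅ = (∏ q ∈ T, (c q - 2)) * f 0 := by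
    have h2 := st_prod h (T := ∅) T (Finset.disjoint_empty_right T)
      (by rw [Finset.union_empty]; exact hT) (by rw [Finset.union_empty]; exact hn)
    rw [Finset.union_empty] at h2
    rw [h2, bt_empty f (fun z y => fv_periodic D c z y)]
    congr 1
    refine Finset.prod_congr rfl fun q _ => ?_
    unfold chi
    simp
  have hcopm : IsCoprime (md T) n := md_coprime D hT hn
  set g : O → ℂ := fun x => (conj (χ x) - cop T x) * f (D.ι x / D.ι (md T)) with hg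
  have hgm : ∀ x, g x ∈ lamG lam Λ := by
    intro x
    simp only [hg]
    by_cases hx : ∀ p ∈ T, ¬ p ∣ x
    · rw [cop_one_of hx]
      have h4 : (conj (χ x)) ^ l ^ k = 1 := by rw [← map_pow, hk x hx, map_one]
      have hint : IsIntegral ℤ (conj (χ x)) := by
        refine IsIntegral.of_pow (n := l ^ k) (pow_pos hl.pos k) ?_
        rw [h4]
        exact isIntegral_one
      let zz : integralClosure ℤ ℂ := ⟨conj (χ x), hint⟩
      have h5 : zz - 1 ∈ lam := lam_pow lam hlam hl h2 k zz (Subtype.ext (by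
        show (conj (χ x)) ^ l ^ k = 1
        exact h4))
      exact AddSubgroup.subset_closure ⟨zz - 1, h5, _, hΛ x (md T) hT.md_ne hcopm, rfl⟩
    · push Not at hx
      obtain ⟨p, hp, hd⟩ := hx
      rw [hχ.zero x p hp hd, cop_zero_of hp hd, map_zero, sub_zero, zero_mul]
      exact (lamG lam Λ).zero_mem
  refine ⟨∑ x ∈ rs D (md T), g x, AddSubgroup.sum_mem _ fun x _ => hgm x, ?_⟩
  rw [← h1]
  unfold st
  rw [← Finset.sum_add_distrib]
  refine Finset.sum_congr rfl fun x _ => ?_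
  have h5 : chi (∅ : Finset O) x = 1 := by unfold chi; simp
  simp only [hg]
  rw [h5]
  ring

lemma prod_int {T : Finset O} {l : ℕ} (hl : l.Prime)
    (hc : ∀ q ∈ T, ∃ m : ℤ, c q = m ∧ ¬ (l : ℤ) ∣ m - 2) :
    ∃ k : ℤ, ∏ q ∈ T, (c q - 2) = (k : ℂ) ∧ ¬ (l : ℤ) ∣ k := by
  classical
  have hlp : Prime (l : ℤ) := Nat.prime_iff_prime_int.1 hl
  have key : ∀ S : Finset O, (∀ q ∈ S, ∃ m : ℤ, c q = m ∧ ¬ (l : ℤ) ∣ m - 2) →
      ∃ k : ℤ, ∏ q ∈ S, (c q - 2) = (k : ℂ) ∧ ¬ (l : ℤ) ∣ k := by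
    intro S
    induction S using Finset.induction_on with
    | empty =>
      intro _
      refine ⟨1, by simp, fun h => hlp.not_isUnit (isUnit_of_dvd_one h)⟩
    | insert q S hq ih =>
      intro hS
      obtain ⟨k, hk, hk2⟩ := ih fun q' hq' => hS q' (Finset.mem_insert_of_mem hq')
      obtain ⟨m, hm, hm2⟩ := hS q (Finset.mem_insert_self q S)
      refine ⟨(m - 2) * k, ?_, fun h => ?_⟩
      · rw [Finset.prod_insert hq, hk, hm]
        push_cast
        ring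
      · rcases hlp.dvd_or_dvd h with h | h
        · exact hm2 h
        · exact hk2 h
  exact key T hc

end ord

section field

variable {K : Type} [Field K] [NumberField K]

/-- primitive characters modulo the product of the `v ∈ T`, trivial on the units, of `l`-power order -/
structure CHl (l : ℕ) (T : Finset (HeightOneSpectrum (𝓞 K))) (χ : 𝓞 K → ℂ) : Prop where
  one : χ 1 = 1
  mul : ∀ x y, χ (x * y) = χ x * χ y
  zero : ∀ x, χ x = 0 ↔ ∃ v ∈ T, x ∈ v.asIdeal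
  prd : ∀ x y, (∀ v ∈ T, x - y ∈ v.asIdeal) → χ x = χ y
  unit : ∀ u, IsUnit u → χ u = 1
  prim : ∀ v ∈ T, ∃ x, (∀ v' ∈ T, v' ≠ v → x - 1 ∈ v'.asIdeal) ∧ χ x ≠ 0 ∧ χ x ≠ 1
  pow : ∃ k : ℕ, ∀ x, χ x ≠ 0 → χ x ^ l ^ k = 1

variable [hP : IsPrincipalIdealRing (𝓞 K)] {σ : K →+* ℂ} {δ : K} {n : 𝓞 K}
  {c : Ideal (𝓞 K) → ℂ} {T : Finset (HeightOneSpectrum (𝓞 K))} {χ : 𝓞 K → ℂ} {l : ℕ}

lemma CHl.ne_iff (h : CHl l T χ) (x : 𝓞 K) : χ x ≠ 0 ↔ ∀ v ∈ T, x ∉ v.asIdeal := by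
  rw [Ne, h.zero]
  push Not
  rfl

lemma CHl.hc [DecidableEq (𝓞 K)] (h : CHl l T χ) (hl : l.Prime) : Hc (T.image gen) χ := by
  classical
  have hne : ∀ x, (∀ p ∈ T.image gen, ¬ p ∣ x) → χ x ≠ 0 := by
    intro x hx
    rw [h.ne_iff]
    exact fun v hv hm => hx _ (Finset.mem_image_of_mem _ hv) (gen_dvd.2 hm)
  refine ⟨fun x y hxy => h.prd x y fun v hv => ?_, h.mul, h.one, fun x p hp hd => ?_,
    fun x hx => ?_, fun p hp => ?_⟩
  · exact gen_dvd.1 ((dvd_md (Finset.mem_image_of_mem _ hv)).trans hxy)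
  · obtain ⟨v, hv, rfl⟩ := Finset.mem_image.1 hp
    exact (h.zero x).2 ⟨v, hv, gen_dvd.1 hd⟩
  · obtain ⟨k, hk⟩ := h.pow
    have h1 := hk x (hne x hx)
    have h2 : ‖χ x‖ = 1 := Complex.norm_eq_one_of_pow_eq_one h1 (pow_pos hl.pos k).ne'
    rw [Complex.mul_conj, Complex.normSq_eq_norm_sq, h2]
    norm_num
  · obtain ⟨v, hv, rfl⟩ := Finset.mem_image.1 hp
    obtain ⟨x, h1, h2, h3⟩ := h.prim v hv
    refine ⟨x, md ((T.erase v).image gen), ?_, ?_, fun q hq hd => ?_, h3⟩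
    · unfold md
      rw [Finset.prod_image fun _ _ _ _ h => gen_inj h, Finset.prod_image fun _ _ _ _ h => gen_inj h,
        Finset.mul_prod_erase T gen hv]
    · exact md_gen_dvd _ fun v' hv' => h1 v' (Finset.mem_of_mem_erase hv')
        (Finset.ne_of_mem_erase hv')
    · obtain ⟨v', hv', rfl⟩ := Finset.mem_image.1 hq
      exact (h.ne_iff x).1 h2 v' hv' (gen_dvd.1 hd)

/-- **Nonvanishing.** -/
theorem chr_ne (h : IQ K σ δ) (hf : BF σ δ n c) (hl : l.Prime) (hχ : CHl l T χ)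
    (hT : ∀ v ∈ T, (2 : 𝓞 K) ∉ v.asIdeal ∧ n ∉ v.asIdeal ∧
      ∃ m : ℤ, c v.asIdeal = m ∧ ¬ (l : ℤ) ∣ m - 2)
    {z : ℂ} (hz : Tendsto (fun t => Fser σ δ c 0 t) (𝓝[>] 0) (𝓝 z)) {ω : ℂ}
    (hω : ∀ l ∈ AddSubgroup.closure (Vals σ δ n c), ∃ j : ℤ, l = j * ω)
    (hω' : ω ∈ AddSubgroup.closure (Vals σ δ n c))
    (hodd : ∀ y ∈ AddSubgroup.closure (Vals σ δ n c), z ≠ (l : ℂ) * y) :
    ∃ G : ℂ → ℂ, Differentiable ℂ G ∧ (∀ s : ℂ, 2 < s.re → HasProd (efx n c χ s) (G s)) ∧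
      G 1 ≠ 0 := by
  classical
  obtain ⟨C, w, κ, κW, hN⟩ := hf.newf h
  have hMG := hN.mg
  have hfam : Fam (T.image gen) := fam_of (A := {v | (2 : 𝓞 K) ∉ v.asIdeal}) (fun v hv => hv)
    (fun v hv => (hT v hv).1)
  have hcc := hχ.hc hl
  obtain ⟨G, h1, h2, h3⟩ := value_x h hf hfam hcc hχ.unit fun v hv => (hT v hv).2.1
  refine ⟨G, h1, h2, ?_⟩
  obtain ⟨k, hk⟩ := hχ.pow
  obtain ⟨lam, hlam, hl2⟩ := exists_lam hl
  have hlim : ∀ x m : 𝓞 K, m ≠ 0 → IsCoprime m n →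
      fv (ordK h) (fun x => c (Ideal.span {x})) ((ordK h).ι x / (ordK h).ι m) ∈
        AddSubgroup.closure (Vals σ δ n c) := by
    intro x m hm hmn
    refine AddSubgroup.subset_closure ⟨x, m, hm, hmn, ?_⟩
    rw [Fser_eq h]
    exact hMG.tendsto hm hmn
  have h0 : fv (ordK h) (fun x => c (Ideal.span {x})) 0 = z := by
    rw [Fser_eq h] at hz
    exact fv_eq hz
  obtain ⟨y, hy, h6⟩ := sum_cong hMG hfam hcc (fun p hp hd => by
      obtain ⟨v, hv, rfl⟩ := Finset.mem_image.1 hp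
      exact (hT v hv).2.1 (gen_dvd.1 hd)) hl (k := k) (fun x hx => hk x (by
        rw [hχ.ne_iff]
        exact fun v hv hm => hx _ (Finset.mem_image_of_mem _ hv) (gen_dvd.2 hm)))
      (Λ := AddSubgroup.closure (Vals σ δ n c)) hlim lam hlam hl2
  obtain ⟨M, hM, hM2⟩ := prod_int (T := T.image gen) (c := fun x => c (Ideal.span {x})) hl (by
    intro p hp
    obtain ⟨v, hv, rfl⟩ := Finset.mem_image.1 hp
    simp only [gen_span]
    exact (hT v hv).2.2)
  obtain ⟨z', hz', hz1⟩ := exists_z0 h hf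
  have hzz : z' = z := tendsto_nhds_unique hz1 hz
  have hzΛ : z ∈ AddSubgroup.closure (Vals σ δ n c) := by
    rw [← hzz]
    exact AddSubgroup.subset_closure hz'
  obtain ⟨y', hy', rfl⟩ := lamG_cyc hω hy
  obtain ⟨j, hj⟩ := hω z hzΛ
  have hω0 : ω ≠ 0 := by
    rintro rfl
    apply hodd 0 (AddSubgroup.zero_mem _)
    rw [hj, mul_zero, mul_zero]
  have hsum : ∑ x ∈ rs (ordK h) (md (T.image gen)), conj (χ x) *
      fv (ordK h) (fun x => c (Ideal.span {x})) ((ordK h).ι x / (ordK h).ι (md (T.image gen))) ≠ 0 := by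
    rw [h6, h0, hM, hj]
    intro h7
    have h8 : ((-(M * j) : ℤ) : ℂ) = (y' : ℂ) := by
      have h9 : ((M : ℂ) * j + y') * ω = 0 := by linear_combination h7
      rcases mul_eq_zero.1 h9 with h10 | h10
      · push_cast
        linear_combination -h10
      · exact absurd h10 hω0
    have h9 := int_lam lam hlam hl hl2 hy' h8
    rw [dvd_neg] at h9
    rcases (Nat.prime_iff_prime_int.1 hl).dvd_or_dvd h9 with h10 | ⟨j', hj'⟩
    · exact hM2 h10
    · apply hodd (j' • ω) (AddSubgroup.zsmul_mem _ hω' j')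
      rw [hj, hj', zsmul_eq_mul]
      push_cast
      ring
  rw [h3]
  have hk0 : (kap (ordK h) : ℂ) ≠ 0 := by exact_mod_cast (kap_pos (ordK h)).ne'
  exact div_ne_zero (mul_ne_zero (div_ne_zero hk0 (gx_ne (ordK h) hfam hcc.br)) hsum)
    (nu_ne (ordK h))

end field

end Pool.Agent.L7h15.OA
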